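import Mathlib

set_option autoImplicit false

/-!
# The top h-numbers inside the basis family of a partition matroid: arbitrarily large gaps

For the partition matroid `M` with classes of sizes `A 1 + 1, …, A d + 1` (the direct sum of the
matroids `U_{1, A i + 1}`) we determine all the numbers `h_d(N)`, `N` a matroid all of whose bases
are bases of `M`: they are exactly the products `x 1 ⋯ x d` with `0 ≤ x i ≤ A i`. Hence, for every
rank `d ≥ 2`, the gap below `h_d(M)` can be arbitrarily large, and it can be a half of `h_d(M)`,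
with `h_d(M)` arbitrarily large.
-/

open Set

namespace Pool.Agent.Results.MP_35fef3_co.ExactValues

/-- The number of independent sets of size `i`. -/
noncomputable def indepCount {α : Type} (M : Matroid α) (i : ℕ) : ℕ :=
  {I : Set α | M.Indep I ∧ I.ncard = i}.ncard

/-- The top entry `h_d` of the h-vector of the independence complex of a matroid of rank `d`. -/
noncomputable def topH {α : Type} (M : Matroid α) (d : ℕ) : ℤ :=
  ∑ i ∈ Finset.range (d + 1), (-1) ^ (d - i) * (indepCount M i : ℤ)

/-! ### The alternating sum over all independent sets -/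

open Classical in
/-- the alternating sum over the independent sets -/
noncomputable def altSum {α : Type} [Fintype α] (M : Matroid α) : ℤ :=
  ∑ I : Set α, if M.Indep I then (-1) ^ I.ncard else 0

theorem topH_eq {α : Type} [Fintype α] (M : Matroid α) (d : ℕ)
    (h : ∀ I, M.Indep I → I.ncard ≤ d) : topH M d = (-1) ^ d * altSum M := by
  classical
  unfold topH altSum
  have h1 : ∀ i ∈ Finset.range (d + 1), (-1 : ℤ) ^ (d - i) * (indepCount M i : ℤ)
      = ∑ I : Set α, if M.Indep I ∧ I.ncard = i then (-1) ^ d * (-1) ^ I.ncard else 0 := by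
    intro i hi
    have hi' : i ≤ d := Nat.lt_succ_iff.1 (Finset.mem_range.1 hi)
    have h2 : (indepCount M i : ℤ) = ∑ I : Set α, if M.Indep I ∧ I.ncard = i then 1 else 0 := by
      unfold indepCount
      rw [Set.ncard_eq_toFinset_card', Finset.card_eq_sum_ones, Nat.cast_sum,
        ← Finset.sum_filter]
      refine Finset.sum_congr ?_ fun _ _ => by simp
      ext I
      simp
    rw [h2, Finset.mul_sum]
    refine Finset.sum_congr rfl fun I _ => ?_
    split_ifs with h3
    · rw [h3.2, mul_one, ← pow_add]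
      have : d + i = (d - i) + 2 * i := by omega
      rw [this, pow_add, pow_mul]
      simp
    · simp
  rw [Finset.sum_congr rfl h1, Finset.sum_comm, Finset.mul_sum]
  refine Finset.sum_congr rfl fun I _ => ?_
  by_cases hI : M.Indep I
  · simp only [hI, true_and, if_true]
    rw [Finset.sum_ite_eq, if_pos]
    exact Finset.mem_range.2 (Nat.lt_succ_of_le (h I hI))
  · simp [hI]

/-! ### transversals -/

section

variable {d : ℕ} {A : Fin d → ℕ}

/-- the ground set: `d` classes, the class `i` has `A i + 1` elements -/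
abbrev Gd (A : Fin d → ℕ) : Type := (i : Fin d) × Fin (A i + 1)

/-- the transversal given by a choice function -/
def tr (f : (i : Fin d) → Fin (A i + 1)) : Set (Gd A) := range fun i => ⟨i, f i⟩

lemma mem_tr (f : (i : Fin d) → Fin (A i + 1)) (i : Fin d) (a : Fin (A i + 1)) :
    (⟨i, a⟩ : Gd A) ∈ tr f ↔ f i = a := by
  constructor
  · rintro ⟨j, hj⟩
    simp only [Sigma.mk.injEq] at hj
    obtain ⟨rfl, h⟩ := hj
    exact eq_of_heq h
  · rintro rfl
    exact ⟨i, rfl⟩

lemma tr_ncard (f : (i : Fin d) → Fin (A i + 1)) : (tr f).ncard = d := by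
  unfold tr
  rw [← image_univ, ncard_image_of_injective, ncard_univ]
  · simp
  · intro i j h
    simp only [Sigma.mk.injEq] at h
    exact h.1

lemma exchange_eq (f : (i : Fin d) → Fin (A i + 1)) (i : Fin d) (a : Fin (A i + 1)) :
    insert (⟨i, a⟩ : Gd A) (tr f \ {⟨i, f i⟩}) = tr (Function.update f i a) := by
  ext ⟨j, b⟩
  rw [mem_insert_iff, mem_sdiff, mem_singleton_iff, mem_tr, mem_tr]
  by_cases h : j = i
  · subst h
    rw [Function.update_self]
    simp only [Sigma.mk.injEq, heq_eq_eq, true_and]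
    constructor
    · rintro (rfl | ⟨h1, h2⟩)
      · rfl
      · exact absurd h1.symm h2
    · rintro rfl
      exact Or.inl rfl
  · rw [Function.update_of_ne h]
    simp only [Sigma.mk.injEq, h, false_and, false_or, not_false_iff, and_true]

/-- the partition matroid with classes `S i`: the bases are the transversals of the `S i` (the
elements which are in no `S i` are loops) -/
noncomputable def pm (S : (i : Fin d) → Set (Fin (A i + 1))) (hS : ∀ i, (S i).Nonempty) :
    Matroid (Gd A) :=
  Matroid.ofIsBaseOfFinite (E := univ) finite_univ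
    (fun B => ∃ f : (i : Fin d) → Fin (A i + 1), (∀ i, f i ∈ S i) ∧ B = tr f)
    (by
      choose f hf using hS
      exact ⟨_, f, hf, rfl⟩)
    (by
      rintro _ _ ⟨f, hf, rfl⟩ ⟨g, hg, rfl⟩ ⟨i, a⟩ ⟨h1, h2⟩
      rw [mem_tr] at h1
      subst h1
      rw [mem_tr] at h2
      refine ⟨⟨i, g i⟩, ⟨(mem_tr _ _ _).2 rfl, fun h => h2 ((mem_tr _ _ _).1 h).symm⟩,
        Function.update f i (g i), ?_, exchange_eq _ _ _⟩
      intro j
      by_cases h : j = i
      · subst h
        rw [Function.update_self]
        exact hg j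
      · rw [Function.update_of_ne h]
        exact hf j)
    (fun _ _ => subset_univ _)

lemma pm_isBase (S : (i : Fin d) → Set (Fin (A i + 1))) (hS : ∀ i, (S i).Nonempty)
    (B : Set (Gd A)) :
    (pm S hS).IsBase B ↔ ∃ f : (i : Fin d) → Fin (A i + 1), (∀ i, f i ∈ S i) ∧ B = tr f :=
  Iff.rfl

lemma pm_E (S : (i : Fin d) → Set (Fin (A i + 1))) (hS : ∀ i, (S i).Nonempty) :
    (pm S hS).E = univ := rfl

/-- the nonloops in the class `i` -/
def nl (N : Matroid (Gd A)) (i : Fin d) : Set (Fin (A i + 1)) := {a | N.Indep {⟨i, a⟩}}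

/-- the independent sets of a matroid whose bases are transversals -/
lemma indep_iff (N : Matroid (Gd A)) (hN : ∀ B, N.IsBase B → ∃ f, B = tr f) (I : Set (Gd A)) :
    N.Indep I ↔ ∀ i, Sigma.mk i ⁻¹' I ⊆ nl N i ∧ (Sigma.mk i ⁻¹' I).Subsingleton := by
  constructor
  · intro h i
    refine ⟨fun a ha => h.subset (singleton_subset_iff.2 ha), ?_⟩
    obtain ⟨B, hB, hIB⟩ := h.exists_isBase_superset
    obtain ⟨f, rfl⟩ := hN B hB
    intro a ha b hb
    rw [← (mem_tr f i a).1 (hIB ha), ← (mem_tr f i b).1 (hIB hb)]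
  · intro h
    have hfin : I.Finite := toFinite I
    induction I, hfin using Set.Finite.induction_on with
    | empty => exact N.empty_indep
    | @insert x J hxJ hJ ih =>
      obtain ⟨i, a⟩ := x
      have ih' : N.Indep J := ih fun j =>
        ⟨(preimage_mono (subset_insert _ _)).trans (h j).1,
          (h j).2.anti (preimage_mono (subset_insert _ _))⟩
      have hx : N.Indep {⟨i, a⟩} := (h i).1 (mem_insert _ _)
      obtain ⟨B, hB, hJB⟩ := ih'.exists_isBase_superset
      obtain ⟨f, rfl⟩ := hN B hB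
      obtain ⟨C, hC, hxC⟩ := hx.exists_isBase_superset
      obtain ⟨g, rfl⟩ := hN C hC
      have hg : g i = a := (mem_tr _ _ _).1 (hxC rfl)
      by_cases hfi : f i = a
      · refine hB.indep.subset (insert_subset ((mem_tr _ _ _).2 hfi) hJB)
      · obtain ⟨⟨j, b⟩, ⟨hy1, hy2⟩, hy⟩ := hB.exchange hC (e := ⟨i, f i⟩)
          ⟨(mem_tr _ _ _).2 rfl, fun h' => hfi (by rw [← (mem_tr _ _ _).1 h', hg])⟩
        obtain ⟨k, hk⟩ := hN _ hy
        rw [mem_tr] at hy1 hy2
        have hji : j = i := by
          by_contra hne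
          have h1 : (⟨j, b⟩ : Gd A) ∈ tr k := hk ▸ mem_insert _ _
          have h2 : (⟨j, f j⟩ : Gd A) ∈ tr k := by
            rw [← hk]
            refine mem_insert_of_mem _ ⟨(mem_tr _ _ _).2 rfl, ?_⟩
            intro h3
            simp only [mem_singleton_iff, Sigma.mk.injEq] at h3
            exact hne h3.1
          rw [mem_tr] at h1 h2
          exact hy2 (h2.symm.trans h1)
        subst hji
        have hba : b = a := hy1.symm.trans hg
        subst hba
        refine hy.indep.subset (insert_subset_insert fun z hz => ⟨hJB hz, ?_⟩)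
        intro hz'
        rw [mem_singleton_iff] at hz'
        subst hz'
        have h1 := (h j).2 (mem_insert_of_mem _ hz : f j ∈ Sigma.mk j ⁻¹' (insert ⟨j, b⟩ J))
          (mem_insert _ _ : b ∈ Sigma.mk j ⁻¹' (insert ⟨j, b⟩ J))
        exact hfi h1

open Classical in
lemma sum_class {β : Type} [Fintype β] (S : Set β) :
    (∑ J : Set β, if J ⊆ S ∧ J.Subsingleton then (-1 : ℤ) ^ J.ncard else 0) = 1 - S.ncard := by
  rw [← Finset.sum_filter]
  have h1 : (Finset.univ.filter fun J : Set β => J ⊆ S ∧ J.Subsingleton) =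
      insert ∅ (S.toFinset.image fun a => ({a} : Set β)) := by
    ext J
    simp only [Finset.mem_filter, Finset.mem_univ, true_and, Finset.mem_insert, Finset.mem_image,
      mem_toFinset]
    constructor
    · rintro ⟨h1, h2⟩
      rcases h2.eq_empty_or_singleton with h3 | ⟨a, rfl⟩
      · exact Or.inl h3
      · exact Or.inr ⟨a, singleton_subset_iff.1 h1, rfl⟩
    · rintro (rfl | ⟨a, ha, rfl⟩)
      · exact ⟨empty_subset _, subsingleton_empty⟩
      · exact ⟨singleton_subset_iff.2 ha, subsingleton_singleton⟩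
  rw [h1, Finset.sum_insert, Finset.sum_image]
  · simp only [ncard_empty, pow_zero, ncard_singleton, pow_one, Finset.sum_const, nsmul_eq_mul]
    rw [ncard_eq_toFinset_card']
    ring
  · intro a _ b _ h
    exact singleton_injective h
  · simp only [Finset.mem_image, not_exists, not_and]
    intro a _ h
    exact singleton_ne_empty a h

/-- a set of elements is the same as its intersections with the classes -/
def setEquiv (A : Fin d → ℕ) : Set (Gd A) ≃ ((i : Fin d) → Set (Fin (A i + 1))) where
  toFun (I : Set (Gd A)) (i : Fin d) := {a : Fin (A i + 1) | (⟨i, a⟩ : Gd A) ∈ I}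
  invFun J := {x : Gd A | x.2 ∈ J x.1}
  left_inv I := by ext ⟨i, a⟩; rfl
  right_inv J := by funext i; ext a; rfl

lemma setEquiv_apply (I : Set (Gd A)) (i : Fin d) : setEquiv A I i = Sigma.mk i ⁻¹' I := rfl

lemma ncard_eq_sum (I : Set (Gd A)) : I.ncard = ∑ i, (Sigma.mk i ⁻¹' I).ncard := by
  classical
  rw [ncard_eq_toFinset_card']
  have : I.toFinset = Finset.univ.sigma fun i => (Sigma.mk i ⁻¹' I).toFinset := by
    ext ⟨i, a⟩
    simp
  rw [this, Finset.card_sigma]
  exact Finset.sum_congr rfl fun i _ => (ncard_eq_toFinset_card' _).symm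

lemma altSum_eq (N : Matroid (Gd A)) (hN : ∀ B, N.IsBase B → ∃ f, B = tr f) :
    altSum N = ∏ i, (1 - ((nl N i).ncard : ℤ)) := by
  classical
  unfold altSum
  have h1 : (∑ I : Set (Gd A), if N.Indep I then (-1 : ℤ) ^ I.ncard else 0) =
      ∑ J : (i : Fin d) → Set (Fin (A i + 1)), ∏ i,
        (if J i ⊆ nl N i ∧ (J i).Subsingleton then (-1 : ℤ) ^ (J i).ncard else 0) := by
    refine Fintype.sum_equiv (setEquiv A) _ _ fun I => ?_
    by_cases h : N.Indep I
    · rw [if_pos h, ncard_eq_sum, ← Finset.prod_pow_eq_pow_sum]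
      refine Finset.prod_congr rfl fun i _ => ?_
      rw [if_pos (show setEquiv A I i ⊆ nl N i ∧ (setEquiv A I i).Subsingleton from
        (indep_iff N hN I).1 h i)]
      rfl
    · rw [if_neg h]
      have h2 := mt (indep_iff N hN I).2 h
      push Not at h2
      obtain ⟨i, hi⟩ := h2
      symm
      apply Finset.prod_eq_zero (Finset.mem_univ i)
      rw [if_neg (show ¬(setEquiv A I i ⊆ nl N i ∧ (setEquiv A I i).Subsingleton) from
        fun h3 => (not_subsingleton_iff.2 (hi h3.1)) h3.2)]
  rw [h1]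
  have h2 := (Finset.prod_univ_sum (fun i : Fin d => (Finset.univ : Finset (Set (Fin (A i + 1)))))
    (fun i J => if J ⊆ nl N i ∧ J.Subsingleton then (-1 : ℤ) ^ J.ncard else 0)).symm
  rw [Fintype.piFinset_univ] at h2
  rw [h2]
  refine Finset.prod_congr rfl fun i _ => ?_
  rw [← sum_class (nl N i)]
  refine Finset.sum_congr rfl fun J _ => ?_
  by_cases hJ : J ⊆ nl N i ∧ J.Subsingleton
  · rw [if_pos hJ, if_pos hJ]
  · rw [if_neg hJ, if_neg hJ]

lemma topH_eq_prod (N : Matroid (Gd A)) (hN : ∀ B, N.IsBase B → ∃ f, B = tr f) :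
    topH N d = ∏ i, (((nl N i).ncard : ℤ) - 1) := by
  rw [topH_eq N d, altSum_eq N hN]
  · have h1 : (-1 : ℤ) ^ d = ∏ _i : Fin d, (-1 : ℤ) := by simp
    rw [h1, ← Finset.prod_mul_distrib]
    exact Finset.prod_congr rfl fun i _ => by ring
  · intro I hI
    obtain ⟨B, hB, hIB⟩ := hI.exists_isBase_superset
    obtain ⟨f, rfl⟩ := hN B hB
    exact (ncard_le_ncard hIB).trans (tr_ncard f).le

lemma nl_pm (S : (i : Fin d) → Set (Fin (A i + 1))) (hS : ∀ i, (S i).Nonempty) (i : Fin d) :
    nl (pm S hS) i = S i := by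
  ext a
  constructor
  · intro h
    obtain ⟨B, hB, hIB⟩ := (show (pm S hS).Indep {⟨i, a⟩} from h).exists_isBase_superset
    obtain ⟨f, hf, rfl⟩ := (pm_isBase S hS B).1 hB
    rw [← (mem_tr f i a).1 (hIB rfl)]
    exact hf i
  · intro h
    have hS' := hS
    choose f hf using hS'
    refine (((pm_isBase S hS _).2 ⟨Function.update f i a, ?_, rfl⟩).indep).subset ?_
    · intro j
      by_cases hj : j = i
      · subst hj
        rwa [Function.update_self]
      · rw [Function.update_of_ne hj]
        exact hf j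
    · rw [singleton_subset_iff, mem_tr, Function.update_self]

end

/-- the direct sum of the rank one matroids on `A i + 1` elements without loops -/
noncomputable def M0 {d : ℕ} (A : Fin d → ℕ) : Matroid (Gd A) :=
  pm (fun _ => univ) fun _ => univ_nonempty

lemma M0_isBase {d : ℕ} (A : Fin d → ℕ) (B : Set (Gd A)) : (M0 A).IsBase B ↔ ∃ f, B = tr f := by
  rw [M0, pm_isBase]
  simp

lemma M0_top {d : ℕ} (A : Fin d → ℕ) : topH (M0 A) d = ∏ i, (A i : ℤ) := by
  rw [topH_eq_prod (M0 A) fun B hB => (M0_isBase A B).1 hB]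
  refine Finset.prod_congr rfl fun i _ => ?_
  unfold M0
  rw [nl_pm, ncard_univ]
  simp

/-- the values of the top h-number in the family of bases of `M0 A` -/
lemma values {d : ℕ} (A : Fin d → ℕ) (v : ℤ) :
    (∃ N : Matroid (Gd A), N.E = univ ∧ (∀ B, N.IsBase B → (M0 A).IsBase B) ∧ topH N d = v) ↔
      ∃ x : Fin d → ℕ, (∀ i, x i ≤ A i) ∧ v = ∏ i, (x i : ℤ) := by
  constructor
  · rintro ⟨N, -, hN, rfl⟩
    have hN' : ∀ B, N.IsBase B → ∃ f, B = tr f := fun B hB => (M0_isBase A B).1 (hN B hB)
    have hpos : ∀ i, 1 ≤ (nl N i).ncard := by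
      intro i
      obtain ⟨B, hB⟩ := N.exists_isBase
      obtain ⟨f, rfl⟩ := hN' B hB
      refine (ncard_pos).2 ⟨f i, hB.indep.subset ?_⟩
      rw [singleton_subset_iff, mem_tr]
    have hle : ∀ i, (nl N i).ncard ≤ A i + 1 := by
      intro i
      refine (ncard_le_ncard (subset_univ _)).trans ?_
      rw [ncard_univ]
      simp
    refine ⟨fun i => (nl N i).ncard - 1, fun i => ?_, ?_⟩
    · have := hle i
      simp only
      omega
    · rw [topH_eq_prod N hN']
      refine Finset.prod_congr rfl fun i _ => ?_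
      have := hpos i
      push_cast [Nat.cast_sub this]
      ring
  · rintro ⟨x, hx, rfl⟩
    have hne : ∀ i, ({a : Fin (A i + 1) | a.val ≤ x i} : Set (Fin (A i + 1))).Nonempty :=
      fun i => ⟨0, by simp⟩
    refine ⟨pm (fun i => {a : Fin (A i + 1) | a.val ≤ x i}) hne, pm_E _ _, ?_, ?_⟩
    · intro B hB
      obtain ⟨f, -, rfl⟩ := (pm_isBase _ _ _).1 hB
      exact (M0_isBase A _).2 ⟨f, rfl⟩
    · rw [topH_eq_prod]
      · refine Finset.prod_congr rfl fun i _ => ?_
        rw [nl_pm]
        have h1 : ({a : Fin (A i + 1) | a.val ≤ x i} : Set (Fin (A i + 1))).ncard = x i + 1 := by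
          have h2 : ({a : Fin (A i + 1) | a.val ≤ x i} : Set (Fin (A i + 1))) =
              range (Fin.castLE (by have := hx i; omega) : Fin (x i + 1) → Fin (A i + 1)) := by
            ext a
            simp only [mem_ofPred_eq, mem_range]
            constructor
            · intro h
              exact ⟨⟨a.val, by omega⟩, Fin.ext rfl⟩
            · rintro ⟨b, rfl⟩
              simp only [Fin.val_castLE]
              omega
          rw [h2, ← image_univ, ncard_image_of_injective _ (Fin.castLE_injective _), ncard_univ]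
          simp
        rw [h1]
        push_cast
        ring
      · intro B hB
        obtain ⟨f, -, rfl⟩ := (pm_isBase _ _ _).1 hB
        exact ⟨f, rfl⟩

/-- if all classes have `m + 1` elements then the second largest value is at most
`m ^ d - m ^ (d - 1)` -/
lemma second_value {d : ℕ} (m : ℕ) (x : Fin d → ℕ) (hx : ∀ i, x i ≤ m) :
    ∏ i, (x i : ℤ) = (m : ℤ) ^ d ∨ ∏ i, (x i : ℤ) + (m : ℤ) ^ (d - 1) ≤ (m : ℤ) ^ d := by
  by_cases h : ∀ i, x i = m
  · left
    simp [h]
  · right
    push Not at h
    obtain ⟨i, hi⟩ := h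
    have h1 : x i + 1 ≤ m := lt_of_le_of_ne (hx i) hi
    have hd : d = (d - 1) + 1 := by
      have := i.2
      omega
    rw [← Finset.mul_prod_erase Finset.univ (fun i => (x i : ℤ)) (Finset.mem_univ i)]
    have h2 : ∏ j ∈ Finset.univ.erase i, (x j : ℤ) ≤ (m : ℤ) ^ (d - 1) := by
      have h3 : ∏ j ∈ Finset.univ.erase i, (x j : ℤ) ≤ ∏ _j ∈ Finset.univ.erase i, (m : ℤ) :=
        Finset.prod_le_prod (fun _ _ => by positivity) fun j _ => by exact_mod_cast hx j
      rw [Finset.prod_const, Finset.card_erase_of_mem (Finset.mem_univ i), Finset.card_univ,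
        Fintype.card_fin] at h3
      exact h3
    have h4 : (m : ℤ) ^ d = (m : ℤ) ^ (d - 1) * m := by
      conv_lhs => rw [hd]
      rw [pow_succ]
    rw [h4]
    have h5 : (x i : ℤ) + 1 ≤ m := by exact_mod_cast h1
    have h6 : (0 : ℤ) ≤ (m : ℤ) ^ (d - 1) := by positivity
    have h7 : (0 : ℤ) ≤ (x i : ℤ) := by positivity
    nlinarith

/-- **The top h-number inside a family of bases: exact values and arbitrarily large gaps.**
1. For all `d` and all `A : Fin d → ℕ` there is a loopless matroid `M` of rank `d` on a finite set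
   (the direct sum of the `U_{1, A i + 1}`) such that the numbers `h_d(N)`, for `N` a matroid on
   the same ground set all of whose bases are bases of `M`, are exactly the products `∏ x i` with
   `0 ≤ x i ≤ A i`; the largest one is `h_d(M) = ∏ A i`.
2. For every rank `d ≥ 2` and every `g` there is a matroid `M` of rank `d` with `h_d(M) > g` such
   that none of the numbers `h_d(M) - 1, …, h_d(M) - g` is the top h-number of a matroid all of
   whose bases are bases of `M`.
3. For every rank `d ≥ 1` there is a matroid `M` with `h_d(M) = 2 ^ d` such that every matroid all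
   of whose bases are bases of `M` has top h-number either `h_d(M)` or at most `h_d(M) / 2`. -/
theorem result :
    (∀ (d : ℕ) (A : Fin d → ℕ), ∃ (α : Type) (_ : Finite α) (M : Matroid α),
      M.E = univ ∧ (∀ B, M.IsBase B → B.ncard = d) ∧ (∀ a, M.Indep {a}) ∧
      topH M d = ∏ i, (A i : ℤ) ∧
      ∀ v : ℤ, (∃ N : Matroid α, N.E = univ ∧ (∀ B, N.IsBase B → M.IsBase B) ∧ topH N d = v) ↔
        ∃ x : Fin d → ℕ, (∀ i, x i ≤ A i) ∧ v = ∏ i, (x i : ℤ)) ∧
    (∀ d : ℕ, 2 ≤ d → ∀ g : ℕ, ∃ (α : Type) (_ : Finite α) (M : Matroid α),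
      M.E = univ ∧ (∀ B, M.IsBase B → B.ncard = d) ∧ (g : ℤ) < topH M d ∧
      ∀ N : Matroid α, N.E = univ → (∀ B, N.IsBase B → M.IsBase B) →
        topH N d = topH M d ∨ topH N d + g < topH M d) ∧
    (∀ d : ℕ, 1 ≤ d → ∃ (α : Type) (_ : Finite α) (M : Matroid α),
      M.E = univ ∧ (∀ B, M.IsBase B → B.ncard = d) ∧ topH M d = 2 ^ d ∧
      ∀ N : Matroid α, N.E = univ → (∀ B, N.IsBase B → M.IsBase B) →
        topH N d = topH M d ∨ 2 * topH N d ≤ topH M d) := by
  have hcard : ∀ (d : ℕ) (A : Fin d → ℕ) (B : Set (Gd A)), (M0 A).IsBase B → B.ncard = d := by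
    intro d A B hB
    obtain ⟨f, rfl⟩ := (M0_isBase A B).1 hB
    exact tr_ncard f
  refine ⟨fun d A => ⟨Gd A, inferInstance, M0 A, rfl, hcard d A, ?_, M0_top A, values A⟩,
    fun d hd g => ?_, fun d hd => ?_⟩
  · rintro ⟨i, a⟩
    have h : a ∈ nl (M0 A) i := by
      unfold M0
      rw [nl_pm]
      trivial
    exact h
  · refine ⟨Gd fun _ : Fin d => g + 1, inferInstance, M0 fun _ : Fin d => g + 1, rfl, hcard _ _,
      ?_, fun N hE hN => ?_⟩
    · rw [M0_top]
      simp only [Finset.prod_const, Finset.card_univ, Fintype.card_fin]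
      have h1 : (g + 1) ^ 1 ≤ (g + 1) ^ d := Nat.pow_le_pow_right (by omega) (by omega)
      rw [pow_one] at h1
      have h2 : g < (g + 1) ^ d := by omega
      exact_mod_cast h2
    · obtain ⟨x, hx, h1⟩ := (values _ _).1 ⟨N, hE, hN, rfl⟩
      have h2 := second_value (g + 1) x hx
      rw [← h1] at h2
      rw [M0_top]
      simp only [Finset.prod_const, Finset.card_univ, Fintype.card_fin]
      rcases h2 with h2 | h2
      · exact Or.inl h2
      · right
        have h3 : (g + 1) ^ 1 ≤ (g + 1) ^ (d - 1) := Nat.pow_le_pow_right (by omega) (by omega)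
        rw [pow_one] at h3
        have h4 : ((g : ℤ) + 1) ≤ ((g + 1 : ℕ) : ℤ) ^ (d - 1) := by exact_mod_cast h3
        linarith
  · refine ⟨Gd fun _ : Fin d => 2, inferInstance, M0 fun _ : Fin d => 2, rfl, hcard _ _,
      ?_, fun N hE hN => ?_⟩
    · rw [M0_top]
      simp
    · obtain ⟨x, hx, h1⟩ := (values _ _).1 ⟨N, hE, hN, rfl⟩
      have h2 := second_value 2 x hx
      rw [← h1] at h2
      rw [M0_top]
      simp only [Finset.prod_const, Finset.card_univ, Fintype.card_fin]
      rcases h2 with h2 | h2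
      · exact Or.inl h2
      · right
        have h4 : ((2 : ℕ) : ℤ) ^ d = ((2 : ℕ) : ℤ) ^ (d - 1) * 2 := by
          conv_lhs => rw [show d = (d - 1) + 1 by omega]
          rw [pow_succ]
          simp
        linarith

end Pool.Agent.Results.MP_35fef3_co.ExactValues
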